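import Pool.Agent.helper23.CU.SpecE

/-!
# Module QE of project cu: invariance of the weight under the switch
-/

open Finset Filter Topology

namespace CU

theorem QE_card {α : Type*} [DecidableEq α] (U A : Finset α) (h : A ⊆ U) :
    A.card = ∑ e ∈ U, if e ∈ A then 1 else 0 := by
  rw [Finset.sum_boole]
  simp only [Nat.cast_id]
  congr 1
  ext e
  simp only [Finset.mem_filter]
  exact ⟨fun h' => ⟨h h', h'⟩, fun h' => h'.2⟩

theorem QE_main {α : Type*} [DecidableEq α] (G η ζ ω γ : Finset α) (_hω : ω ⊆ G)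
    (h : (η ∩ G) ∪ ζ ⊆ ω) (hγ : γ ⊆ ω) :
    (symmDiff η γ).card + (symmDiff ζ γ).card + 2 * (ω \ (symmDiff η γ ∪ symmDiff ζ γ)).card =
      η.card + ζ.card + 2 * (ω \ (η ∪ ζ)).card := by
  set U := η ∪ ζ ∪ ω with hU
  have hγU : γ ⊆ U := hγ.trans Finset.subset_union_right
  have hηU : η ⊆ U := Finset.subset_union_left.trans Finset.subset_union_left
  have hζU : ζ ⊆ U := Finset.subset_union_right.trans Finset.subset_union_left
  have hωU : ω ⊆ U := Finset.subset_union_right
  have h1 : symmDiff η γ ⊆ U := by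
    intro e he
    rcases Finset.mem_symmDiff.1 he with ⟨h, -⟩ | ⟨h, -⟩
    · exact hηU h
    · exact hγU h
  have h2 : symmDiff ζ γ ⊆ U := by
    intro e he
    rcases Finset.mem_symmDiff.1 he with ⟨h, -⟩ | ⟨h, -⟩
    · exact hζU h
    · exact hγU h
  have h3 : ω \ (symmDiff η γ ∪ symmDiff ζ γ) ⊆ U := Finset.sdiff_subset.trans hωU
  have h4 : ω \ (η ∪ ζ) ⊆ U := Finset.sdiff_subset.trans hωU
  rw [QE_card U _ h1, QE_card U _ h2, QE_card U _ h3, QE_card U _ hηU, QE_card U _ hζU,
    QE_card U _ h4, Finset.mul_sum, Finset.mul_sum, ← Finset.sum_add_distrib,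
    ← Finset.sum_add_distrib, ← Finset.sum_add_distrib, ← Finset.sum_add_distrib]
  refine Finset.sum_congr rfl fun e _ => ?_
  have hg : e ∈ γ → e ∈ ω := fun h => hγ h
  simp only [Finset.mem_symmDiff, Finset.mem_sdiff, Finset.mem_union]
  by_cases a : e ∈ η <;> by_cases b : e ∈ ζ <;> by_cases c : e ∈ γ <;> by_cases w : e ∈ ω <;>
    first
    | exact absurd (hg c) w
    | simp [a, b, c, w]

theorem QE : QE_stmt := by
  intro n G η ζ ω γ x hω h hγ
  have := QE_main G η ζ ω γ hω h hγ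
  rw [← pow_mul, ← pow_mul, ← pow_add, ← pow_add, this]

end CU
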